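import Pool.Agent.Lib_helper72.KYd.Cp

/-!
# The curve with `b = 10/3`, `c = 2`: identities of the cubic step
-/

set_option autoImplicit false
set_option linter.unusedSectionVars false
set_option linter.unusedSimpArgs false
set_option linter.unusedVariables false

namespace Pool.Agent.KYd

open Polynomial WeierstrassCurve.Affine WithZero TN KY KC72 MK4
open Pool.Agent.K7 (orb6_orb)

section

variable {k : Type*} [Field k] [CharZero k] {F : Type*} [Field F] [Algebra k F] {x y : F}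

lemma sq15 (h : Gen (10/3 : k) (2) x y) : SS (pt (1 / (x - 10/9))) (pt (algebraMap k F (9/80))) (pt (algebraMap k F (9/20))) (pt (algebraMap k F (-9/10))) =
    sy (KC72.ev (List.ofFn (G8 x y)) (pq.getD 15 default)) := by
  have := cz (k := k) (F := F)
  have n1 : x ≠ 0 := uF_ne h 0
  have n2 : x - 10/3 ≠ 0 := uF_ne h 1
  have n3 : x - 2 ≠ 0 := uF_ne h 2
  have n4 : x - 10/9 ≠ 0 := uF_ne h 3
  have n5 : x - 10 ≠ 0 := uF_ne h 4
  have n6 : x + 2/3 ≠ 0 := uF_ne h 5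
  have o2 : 3 * x - 10 ≠ 0 := by
    intro h0; apply n2; linear_combination h0 / 3
  have o2' : x * 3 - 10 ≠ 0 := by
    intro h0; apply n2; linear_combination h0 / 3
  have o4 : 9 * x - 10 ≠ 0 := by
    intro h0; apply n4; linear_combination h0 / 9
  have o4' : x * 9 - 10 ≠ 0 := by
    intro h0; apply n4; linear_combination h0 / 9
  have o6 : 3 * x + 2 ≠ 0 := by
    intro h0; apply n6; linear_combination h0 / 3
  have o6' : x * 3 + 2 ≠ 0 := by
    intro h0; apply n6; linear_combination h0 / 3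
  have l5 : (1 / (x - 10/9)) - (9/80) = (-9/80) * (x - 10) / (x - 10/9) := by
    rw [eq_div_iff n4, sub_mul, one_div, inv_mul_cancel₀ n4]
    ring
  have l2 : (1 / (x - 10/9)) - (9/20) = (-9/20) * (x - 10/3) / (x - 10/9) := by
    rw [eq_div_iff n4, sub_mul, one_div, inv_mul_cancel₀ n4]
    ring
  show _ = sy (KC72.ev (List.ofFn (G8 x y)) (false, [.ofNat 0, .negSucc 0, .ofNat 0, .ofNat 0, .ofNat 1, .ofNat 0, .ofNat 0, .ofNat 0, .ofNat 0, .ofNat 0, .ofNat 0, .ofNat 0, .negSucc 0, .ofNat 0]))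
  unfold SS
  congr 1
  rw [ev_G8 (k := k)]
  unfold KC72.cr
  simp only [br_pt, br_pto, br_opt, mk0, mk1, mk2, mk3, mk4, mk5, mk6, mk7, mk8, mk9, mk10, mk11, mk12, mk13, mk14, mk15]
  rw [l5, l2]
  simp [M8, Fin.prod_univ_succ, uF, zpow_ofNat, map_ofNat]
  field_simp
  try ring

lemma sq16 (h : Gen (10/3 : k) (2) x y) : SS (pt (1 / (x - 10/9))) (pt (algebraMap k F (9/80))) (pt (algebraMap k F (-9/10))) (po F) =
    sy (KC72.ev (List.ofFn (G8 x y)) (pq.getD 16 default)) := by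
  have := cz (k := k) (F := F)
  have n1 : x ≠ 0 := uF_ne h 0
  have n2 : x - 10/3 ≠ 0 := uF_ne h 1
  have n3 : x - 2 ≠ 0 := uF_ne h 2
  have n4 : x - 10/9 ≠ 0 := uF_ne h 3
  have n5 : x - 10 ≠ 0 := uF_ne h 4
  have n6 : x + 2/3 ≠ 0 := uF_ne h 5
  have o2 : 3 * x - 10 ≠ 0 := by
    intro h0; apply n2; linear_combination h0 / 3
  have o2' : x * 3 - 10 ≠ 0 := by
    intro h0; apply n2; linear_combination h0 / 3
  have o4 : 9 * x - 10 ≠ 0 := by
    intro h0; apply n4; linear_combination h0 / 9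
  have o4' : x * 9 - 10 ≠ 0 := by
    intro h0; apply n4; linear_combination h0 / 9
  have o6 : 3 * x + 2 ≠ 0 := by
    intro h0; apply n6; linear_combination h0 / 3
  have o6' : x * 3 + 2 ≠ 0 := by
    intro h0; apply n6; linear_combination h0 / 3
  have l5 : (1 / (x - 10/9)) - (9/80) = (-9/80) * (x - 10) / (x - 10/9) := by
    rw [eq_div_iff n4, sub_mul, one_div, inv_mul_cancel₀ n4]
    ring
  have l1 : (1 / (x - 10/9)) - (-9/10) = (9/10) * (x) / (x - 10/9) := by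
    rw [eq_div_iff n4, sub_mul, one_div, inv_mul_cancel₀ n4]
    ring
  show _ = sy (KC72.ev (List.ofFn (G8 x y)) (true, [.negSucc 0, .ofNat 0, .ofNat 0, .ofNat 0, .ofNat 1, .ofNat 0, .ofNat 0, .ofNat 0, .ofNat 0, .ofNat 0, .ofNat 0, .negSucc 2, .ofNat 0, .ofNat 0]))
  unfold SS
  congr 1
  rw [ev_G8 (k := k)]
  unfold KC72.cr
  simp only [br_pt, br_pto, br_opt, mk0, mk1, mk2, mk3, mk4, mk5, mk6, mk7, mk8, mk9, mk10, mk11, mk12, mk13, mk14, mk15]
  rw [l5, l1]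
  simp [M8, Fin.prod_univ_succ, uF, zpow_ofNat, map_ofNat]
  field_simp
  try ring

lemma sq17 (h : Gen (10/3 : k) (2) x y) : SS (pt (1 / (x))) (pt (algebraMap k F (-3/2))) (pt (algebraMap k F (1/10))) (pt (algebraMap k F (9/10))) =
    sy (KC72.ev (List.ofFn (G8 x y)) (pq.getD 17 default)) := by
  have := cz (k := k) (F := F)
  have n1 : x ≠ 0 := uF_ne h 0
  have n2 : x - 10/3 ≠ 0 := uF_ne h 1
  have n3 : x - 2 ≠ 0 := uF_ne h 2
  have n4 : x - 10/9 ≠ 0 := uF_ne h 3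
  have n5 : x - 10 ≠ 0 := uF_ne h 4
  have n6 : x + 2/3 ≠ 0 := uF_ne h 5
  have o2 : 3 * x - 10 ≠ 0 := by
    intro h0; apply n2; linear_combination h0 / 3
  have o2' : x * 3 - 10 ≠ 0 := by
    intro h0; apply n2; linear_combination h0 / 3
  have o4 : 9 * x - 10 ≠ 0 := by
    intro h0; apply n4; linear_combination h0 / 9
  have o4' : x * 9 - 10 ≠ 0 := by
    intro h0; apply n4; linear_combination h0 / 9
  have o6 : 3 * x + 2 ≠ 0 := by
    intro h0; apply n6; linear_combination h0 / 3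
  have o6' : x * 3 + 2 ≠ 0 := by
    intro h0; apply n6; linear_combination h0 / 3
  have l6 : (1 / (x)) - (-3/2) = (3/2) * (x + 2/3) / (x) := by
    rw [eq_div_iff n1, sub_mul, one_div, inv_mul_cancel₀ n1]
    ring
  have l5 : (1 / (x)) - (1/10) = (-1/10) * (x - 10) / (x) := by
    rw [eq_div_iff n1, sub_mul, one_div, inv_mul_cancel₀ n1]
    ring
  show _ = sy (KC72.ev (List.ofFn (G8 x y)) (true, [.ofNat 0, .ofNat 0, .ofNat 0, .ofNat 0, .negSucc 0, .ofNat 1, .ofNat 0, .ofNat 0, .ofNat 0, .ofNat 0, .ofNat 0, .ofNat 0, .ofNat 0, .ofNat 1]))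
  unfold SS
  congr 1
  rw [ev_G8 (k := k)]
  unfold KC72.cr
  simp only [br_pt, br_pto, br_opt, mk0, mk1, mk2, mk3, mk4, mk5, mk6, mk7, mk8, mk9, mk10, mk11, mk12, mk13, mk14, mk15]
  rw [l6, l5]
  simp [M8, Fin.prod_univ_succ, uF, zpow_ofNat, map_ofNat]
  field_simp
  try ring

lemma sq18 (h : Gen (10/3 : k) (2) x y) : SS (pt (1 / (x))) (pt (algebraMap k F (3/10))) (po F) (pt (algebraMap k F (9/10))) =
    sy (KC72.ev (List.ofFn (G8 x y)) (pq.getD 18 default)) := by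
  have := cz (k := k) (F := F)
  have n1 : x ≠ 0 := uF_ne h 0
  have n2 : x - 10/3 ≠ 0 := uF_ne h 1
  have n3 : x - 2 ≠ 0 := uF_ne h 2
  have n4 : x - 10/9 ≠ 0 := uF_ne h 3
  have n5 : x - 10 ≠ 0 := uF_ne h 4
  have n6 : x + 2/3 ≠ 0 := uF_ne h 5
  have o2 : 3 * x - 10 ≠ 0 := by
    intro h0; apply n2; linear_combination h0 / 3
  have o2' : x * 3 - 10 ≠ 0 := by
    intro h0; apply n2; linear_combination h0 / 3
  have o4 : 9 * x - 10 ≠ 0 := by
    intro h0; apply n4; linear_combination h0 / 9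
  have o4' : x * 9 - 10 ≠ 0 := by
    intro h0; apply n4; linear_combination h0 / 9
  have o6 : 3 * x + 2 ≠ 0 := by
    intro h0; apply n6; linear_combination h0 / 3
  have o6' : x * 3 + 2 ≠ 0 := by
    intro h0; apply n6; linear_combination h0 / 3
  have l2 : (1 / (x)) - (3/10) = (-3/10) * (x - 10/3) / (x) := by
    rw [eq_div_iff n1, sub_mul, one_div, inv_mul_cancel₀ n1]
    ring
  show _ = sy (KC72.ev (List.ofFn (G8 x y)) (true, [.negSucc 0, .ofNat 1, .ofNat 0, .ofNat 0, .ofNat 0, .ofNat 0, .ofNat 0, .ofNat 0, .ofNat 0, .ofNat 0, .ofNat 0, .negSucc 0, .ofNat 0, .ofNat 0]))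
  unfold SS
  congr 1
  rw [ev_G8 (k := k)]
  unfold KC72.cr
  simp only [br_pt, br_pto, br_opt, mk0, mk1, mk2, mk3, mk4, mk5, mk6, mk7, mk8, mk9, mk10, mk11, mk12, mk13, mk14, mk15]
  rw [l2]
  simp [M8, Fin.prod_univ_succ, uF, zpow_ofNat, map_ofNat]
  field_simp
  try ring

lemma sq19 (h : Gen (10/3 : k) (2) x y) : SS (pt (1 / (x))) (pt (algebraMap k F (-3/2))) (pt (algebraMap k F (9/10))) (pt (algebraMap k F (1/10))) =
    sy (KC72.ev (List.ofFn (G8 x y)) (pq.getD 19 default)) := by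
  have := cz (k := k) (F := F)
  have n1 : x ≠ 0 := uF_ne h 0
  have n2 : x - 10/3 ≠ 0 := uF_ne h 1
  have n3 : x - 2 ≠ 0 := uF_ne h 2
  have n4 : x - 10/9 ≠ 0 := uF_ne h 3
  have n5 : x - 10 ≠ 0 := uF_ne h 4
  have n6 : x + 2/3 ≠ 0 := uF_ne h 5
  have o2 : 3 * x - 10 ≠ 0 := by
    intro h0; apply n2; linear_combination h0 / 3
  have o2' : x * 3 - 10 ≠ 0 := by
    intro h0; apply n2; linear_combination h0 / 3
  have o4 : 9 * x - 10 ≠ 0 := by
    intro h0; apply n4; linear_combination h0 / 9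
  have o4' : x * 9 - 10 ≠ 0 := by
    intro h0; apply n4; linear_combination h0 / 9
  have o6 : 3 * x + 2 ≠ 0 := by
    intro h0; apply n6; linear_combination h0 / 3
  have o6' : x * 3 + 2 ≠ 0 := by
    intro h0; apply n6; linear_combination h0 / 3
  have l6 : (1 / (x)) - (-3/2) = (3/2) * (x + 2/3) / (x) := by
    rw [eq_div_iff n1, sub_mul, one_div, inv_mul_cancel₀ n1]
    ring
  have l4 : (1 / (x)) - (9/10) = (-9/10) * (x - 10/9) / (x) := by
    rw [eq_div_iff n1, sub_mul, one_div, inv_mul_cancel₀ n1]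
    ring
  show _ = sy (KC72.ev (List.ofFn (G8 x y)) (false, [.ofNat 0, .ofNat 0, .ofNat 0, .negSucc 0, .ofNat 0, .ofNat 1, .ofNat 0, .ofNat 0, .ofNat 0, .ofNat 0, .ofNat 0, .negSucc 0, .negSucc 0, .ofNat 1]))
  unfold SS
  congr 1
  rw [ev_G8 (k := k)]
  unfold KC72.cr
  simp only [br_pt, br_pto, br_opt, mk0, mk1, mk2, mk3, mk4, mk5, mk6, mk7, mk8, mk9, mk10, mk11, mk12, mk13, mk14, mk15]
  rw [l6, l4]
  simp [M8, Fin.prod_univ_succ, uF, zpow_ofNat, map_ofNat]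
  field_simp
  try ring

lemma sq20 (h : Gen (10/3 : k) (2) x y) : SS (pt (1 / (x))) (pt (algebraMap k F (3/10))) (pt (algebraMap k F (9/10))) (pt (algebraMap k F (1/10))) =
    sy (KC72.ev (List.ofFn (G8 x y)) (pq.getD 20 default)) := by
  have := cz (k := k) (F := F)
  have n1 : x ≠ 0 := uF_ne h 0
  have n2 : x - 10/3 ≠ 0 := uF_ne h 1
  have n3 : x - 2 ≠ 0 := uF_ne h 2
  have n4 : x - 10/9 ≠ 0 := uF_ne h 3
  have n5 : x - 10 ≠ 0 := uF_ne h 4
  have n6 : x + 2/3 ≠ 0 := uF_ne h 5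
  have o2 : 3 * x - 10 ≠ 0 := by
    intro h0; apply n2; linear_combination h0 / 3
  have o2' : x * 3 - 10 ≠ 0 := by
    intro h0; apply n2; linear_combination h0 / 3
  have o4 : 9 * x - 10 ≠ 0 := by
    intro h0; apply n4; linear_combination h0 / 9
  have o4' : x * 9 - 10 ≠ 0 := by
    intro h0; apply n4; linear_combination h0 / 9
  have o6 : 3 * x + 2 ≠ 0 := by
    intro h0; apply n6; linear_combination h0 / 3
  have o6' : x * 3 + 2 ≠ 0 := by
    intro h0; apply n6; linear_combination h0 / 3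
  have l2 : (1 / (x)) - (3/10) = (-3/10) * (x - 10/3) / (x) := by
    rw [eq_div_iff n1, sub_mul, one_div, inv_mul_cancel₀ n1]
    ring
  have l4 : (1 / (x)) - (9/10) = (-9/10) * (x - 10/9) / (x) := by
    rw [eq_div_iff n1, sub_mul, one_div, inv_mul_cancel₀ n1]
    ring
  show _ = sy (KC72.ev (List.ofFn (G8 x y)) (false, [.ofNat 0, .ofNat 1, .ofNat 0, .negSucc 0, .ofNat 0, .ofNat 0, .ofNat 0, .ofNat 0, .ofNat 0, .ofNat 0, .ofNat 0, .ofNat 2, .negSucc 0, .ofNat 0]))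
  unfold SS
  congr 1
  rw [ev_G8 (k := k)]
  unfold KC72.cr
  simp only [br_pt, br_pto, br_opt, mk0, mk1, mk2, mk3, mk4, mk5, mk6, mk7, mk8, mk9, mk10, mk11, mk12, mk13, mk14, mk15]
  rw [l2, l4]
  simp [M8, Fin.prod_univ_succ, uF, zpow_ofNat, map_ofNat]
  field_simp
  try ring

lemma sq21 (h : Gen (10/3 : k) (2) x y) : SS (pt (1 / (x))) (pt (algebraMap k F (-3/2))) (po F) (pt (algebraMap k F (9/10))) =
    sy (KC72.ev (List.ofFn (G8 x y)) (pq.getD 21 default)) := by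
  have := cz (k := k) (F := F)
  have n1 : x ≠ 0 := uF_ne h 0
  have n2 : x - 10/3 ≠ 0 := uF_ne h 1
  have n3 : x - 2 ≠ 0 := uF_ne h 2
  have n4 : x - 10/9 ≠ 0 := uF_ne h 3
  have n5 : x - 10 ≠ 0 := uF_ne h 4
  have n6 : x + 2/3 ≠ 0 := uF_ne h 5
  have o2 : 3 * x - 10 ≠ 0 := by
    intro h0; apply n2; linear_combination h0 / 3
  have o2' : x * 3 - 10 ≠ 0 := by
    intro h0; apply n2; linear_combination h0 / 3
  have o4 : 9 * x - 10 ≠ 0 := by
    intro h0; apply n4; linear_combination h0 / 9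
  have o4' : x * 9 - 10 ≠ 0 := by
    intro h0; apply n4; linear_combination h0 / 9
  have o6 : 3 * x + 2 ≠ 0 := by
    intro h0; apply n6; linear_combination h0 / 3
  have o6' : x * 3 + 2 ≠ 0 := by
    intro h0; apply n6; linear_combination h0 / 3
  have l6 : (1 / (x)) - (-3/2) = (3/2) * (x + 2/3) / (x) := by
    rw [eq_div_iff n1, sub_mul, one_div, inv_mul_cancel₀ n1]
    ring
  show _ = sy (KC72.ev (List.ofFn (G8 x y)) (false, [.negSucc 0, .ofNat 0, .ofNat 0, .ofNat 0, .ofNat 0, .ofNat 1, .ofNat 0, .ofNat 0, .ofNat 0, .ofNat 0, .ofNat 0, .negSucc 2, .ofNat 0, .ofNat 1]))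
  unfold SS
  congr 1
  rw [ev_G8 (k := k)]
  unfold KC72.cr
  simp only [br_pt, br_pto, br_opt, mk0, mk1, mk2, mk3, mk4, mk5, mk6, mk7, mk8, mk9, mk10, mk11, mk12, mk13, mk14, mk15]
  rw [l6]
  simp [M8, Fin.prod_univ_succ, uF, zpow_ofNat, map_ofNat]
  field_simp
  try ring

end

end Pool.Agent.KYd
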