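import Pool.Agent.Lib_helper72.KYd.S
import Pool.Agent.Lib_helper72.KYd.Ck
import Pool.Agent.Lib_helper72.KYd.Cq0
import Pool.Agent.Lib_helper72.KYd.Cq1
import Pool.Agent.Lib_helper72.KYd.Cq2
import Pool.Agent.Lib_helper72.KYd.Cq3

/-!
# The curve with `b = 10/3`, `c = 2`: the cubic step
-/

set_option autoImplicit false
set_option linter.unusedSectionVars false
set_option linter.unusedSimpArgs false
set_option linter.unusedVariables false

namespace Pool.Agent.KYd

open Polynomial WeierstrassCurve.Affine WithZero TN KY KC72 MK4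
open Pool.Agent.K7 (orb6_orb)

section

variable {k : Type*} [Field k] [CharZero k] {F : Type*} [Field F] [Algebra k F] {x y : F}

lemma u_nc0 (h : Gen (10/3 : k) (2) x y) (c : k) : x ≠ algebraMap k F c := by
  intro hc
  have hx : x ≠ 0 := uF_ne h 0
  have h1 : M8 x y ![1, 0, 0, 0, 0, 0, 0, 0, 0, 0, 0] = algebraMap k F c := by
    rw [← hc]
    simp [M8, Fin.prod_univ_succ, uF]
  have h2 := M8_const h h1
  have h3 := congrFun h2 0
  simp at h3

lemma u_nc1 (h : Gen (10/3 : k) (2) x y) (c : k) : (1 / (x)) ≠ algebraMap k F c := by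
  intro hc
  have hx : x ≠ 0 := uF_ne h 0
  have h1 : M8 x y ![-1, 0, 0, 0, 0, 0, 0, 0, 0, 0, 0] = algebraMap k F c := by
    rw [← hc]
    simp [M8, Fin.prod_univ_succ, uF]
  have h2 := M8_const h h1
  have h3 := congrFun h2 0
  simp at h3

lemma u_nc4 (h : Gen (10/3 : k) (2) x y) (c : k) : (1 / (x - 10/9)) ≠ algebraMap k F c := by
  intro hc
  have hx : x - 10/9 ≠ 0 := uF_ne h 3
  have h1 : M8 x y ![0, 0, 0, -1, 0, 0, 0, 0, 0, 0, 0] = algebraMap k F c := by
    rw [← hc]
    simp [M8, Fin.prod_univ_succ, uF]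
  have h2 := M8_const h h1
  have h3 := congrFun h2 3
  simp at h3

variable (k x y) in
/-- the span of the symbols of the Moebius functions -/
noncomputable def V : Submodule ℚ (B2 F) := SC k F ⊔ Submodule.span ℚ
  {a | ∃ q < 25, a = sy (KC72.ev (List.ofFn (G8 x y)) (pq.getD q default))}

lemma memV {q : ℕ} (hq : q < 25) :
    sy (KC72.ev (List.ofFn (G8 x y)) (pq.getD q default)) ∈ V k x y :=
  Submodule.mem_sup_right (Submodule.subset_span ⟨q, hq, rfl⟩)

theorem cub0_0 (h : Gen (10/3 : k) (2) x y) :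
    sy (KC72.ev (List.ofFn (G8 x y)) (R0.getD 0 default)) ∈ V k x y := by
  have := cz (k := k) (F := F)
  have H := sy_cubic' (k := k) (x := x) (u_nc0 h) (a1 := 10/3) (a2 := 10/3) (a3 := -2/3)
    (b := 10/9) (c1 := 0) (c2 := 2) (c3 := 10) (κ := 1/6) (fun p => by ring)
    (by norm_num) (by norm_num) (by norm_num) (by norm_num) (by norm_num) (by norm_num)
    (by norm_num)
  rw [hR0 h] at H
  have m1 : SS (pt x) (pt (algebraMap k F (10/3))) (pt (algebraMap k F (10/9))) (pt (algebraMap k F (0))) ∈ V k x y := by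
    rw [sq0 h]; exact memV (by norm_num)
  have m2 : SS (pt x) (pt (algebraMap k F (10/3))) (pt (algebraMap k F (10/9))) (pt (algebraMap k F (0))) ∈ V k x y := by
    rw [sq0 h]; exact memV (by norm_num)
  have m3 : SS (pt x) (pt (algebraMap k F (-2/3))) (po F) (pt (algebraMap k F (0))) ∈ V k x y := by
    rw [sq1 h]; exact memV (by norm_num)
  have m4 : SS (pt x) (pt (algebraMap k F (10/3))) (pt (algebraMap k F (2))) (pt (algebraMap k F (10/9))) ∈ V k x y := by
    rw [sq2 h]; exact memV (by norm_num)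
  have m5 : SS (pt x) (pt (algebraMap k F (-2/3))) (pt (algebraMap k F (10))) (pt (algebraMap k F (10/9))) ∈ V k x y := by
    rw [sq3 h]; exact memV (by norm_num)
  have m6 : SS (pt x) (pt (algebraMap k F (10/3))) (pt (algebraMap k F (2))) (pt (algebraMap k F (10/9))) ∈ V k x y := by
    rw [sq2 h]; exact memV (by norm_num)
  have m7 : SS (pt x) (pt (algebraMap k F (10/3))) (po F) (pt (algebraMap k F (10))) ∈ V k x y := by
    rw [sq4 h]; exact memV (by norm_num)
  have m8 : SS (pt x) (pt (algebraMap k F (-2/3))) (pt (algebraMap k F (10/9))) (pt (algebraMap k F (10))) ∈ V k x y := by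
    rw [sq5 h]; exact memV (by norm_num)
  have m9 : SS (pt x) (pt (algebraMap k F (-2/3))) (pt (algebraMap k F (10))) (pt (algebraMap k F (10/3))) ∈ V k x y := by
    rw [sq6 h]; exact memV (by norm_num)
  have m10 : SS (pt x) (pt (algebraMap k F (-2/3))) (pt (algebraMap k F (10/3))) (po F) ∈ V k x y := by
    rw [sq7 h]; exact memV (by norm_num)
  have m11 : SS (pt x) (pt (algebraMap k F (-2/3))) (po F) (pt (algebraMap k F (2))) ∈ V k x y := by
    rw [sq8 h]; exact memV (by norm_num)
  have H2 := Submodule.add_mem (V k x y) (Submodule.mem_sup_left H)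
    (Submodule.add_mem _ (Submodule.add_mem _ (Submodule.add_mem _ (Submodule.add_mem _
    (Submodule.add_mem _ (Submodule.sub_mem _ (Submodule.sub_mem _ (Submodule.sub_mem _
    (Submodule.add_mem _ (Submodule.add_mem _ m1 m2) m3) m4) m5) m6) m7) m8) m9) m10) m11)
  rwa [sub_add_cancel] at H2

theorem cub0_1 (h : Gen (10/3 : k) (2) x y) :
    sy (KC72.ev (List.ofFn (G8 x y)) (R0.getD 1 default)) ∈ V k x y := by
  have := cz (k := k) (F := F)
  have H := sy_cubic' (k := k) (x := (1 / (x - 10/9))) (u_nc4 h) (a1 := -9/10) (a2 := -9/10) (a3 := 9/80)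
    (b := 0) (c1 := 9/20) (c2 := 9/20) (c3 := 9/20) (κ := 80/243) (fun p => by ring)
    (by norm_num) (by norm_num) (by norm_num) (by norm_num) (by norm_num) (by norm_num)
    (by norm_num)
  rw [hR1 h] at H
  have m1 : SS (pt (1 / (x - 10/9))) (pt (algebraMap k F (-9/10))) (pt (algebraMap k F (0))) (pt (algebraMap k F (9/20))) ∈ V k x y := by
    rw [sq9 h]; exact memV (by norm_num)
  have m2 : SS (pt (1 / (x - 10/9))) (pt (algebraMap k F (-9/10))) (pt (algebraMap k F (0))) (pt (algebraMap k F (9/20))) ∈ V k x y := by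
    rw [sq9 h]; exact memV (by norm_num)
  have m3 : SS (pt (1 / (x - 10/9))) (pt (algebraMap k F (9/80))) (po F) (pt (algebraMap k F (9/20))) ∈ V k x y := by
    rw [sq10 h]; exact memV (by norm_num)
  have m4 : SS (pt (1 / (x - 10/9))) (pt (algebraMap k F (-9/10))) (pt (algebraMap k F (9/20))) (pt (algebraMap k F (0))) ∈ V k x y := by
    rw [sq11 h]; exact memV (by norm_num)
  have m5 : SS (pt (1 / (x - 10/9))) (pt (algebraMap k F (9/80))) (pt (algebraMap k F (9/20))) (pt (algebraMap k F (0))) ∈ V k x y := by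
    rw [sq12 h]; exact memV (by norm_num)
  have m6 : SS (pt (1 / (x - 10/9))) (pt (algebraMap k F (-9/10))) (pt (algebraMap k F (9/20))) (pt (algebraMap k F (0))) ∈ V k x y := by
    rw [sq11 h]; exact memV (by norm_num)
  have m7 : SS (pt (1 / (x - 10/9))) (pt (algebraMap k F (-9/10))) (po F) (pt (algebraMap k F (9/20))) ∈ V k x y := by
    rw [sq13 h]; exact memV (by norm_num)
  have m8 : SS (pt (1 / (x - 10/9))) (pt (algebraMap k F (9/80))) (pt (algebraMap k F (0))) (pt (algebraMap k F (9/20))) ∈ V k x y := by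
    rw [sq14 h]; exact memV (by norm_num)
  have m9 : SS (pt (1 / (x - 10/9))) (pt (algebraMap k F (9/80))) (pt (algebraMap k F (9/20))) (pt (algebraMap k F (-9/10))) ∈ V k x y := by
    rw [sq15 h]; exact memV (by norm_num)
  have m10 : SS (pt (1 / (x - 10/9))) (pt (algebraMap k F (9/80))) (pt (algebraMap k F (-9/10))) (po F) ∈ V k x y := by
    rw [sq16 h]; exact memV (by norm_num)
  have m11 : SS (pt (1 / (x - 10/9))) (pt (algebraMap k F (9/80))) (po F) (pt (algebraMap k F (9/20))) ∈ V k x y := by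
    rw [sq10 h]; exact memV (by norm_num)
  have H2 := Submodule.add_mem (V k x y) (Submodule.mem_sup_left H)
    (Submodule.add_mem _ (Submodule.add_mem _ (Submodule.add_mem _ (Submodule.add_mem _
    (Submodule.add_mem _ (Submodule.sub_mem _ (Submodule.sub_mem _ (Submodule.sub_mem _
    (Submodule.add_mem _ (Submodule.add_mem _ m1 m2) m3) m4) m5) m6) m7) m8) m9) m10) m11)
  rwa [sub_add_cancel] at H2

theorem cub0_2 (h : Gen (10/3 : k) (2) x y) :
    sy (KC72.ev (List.ofFn (G8 x y)) (R0.getD 2 default)) ∈ V k x y := by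
  have := cz (k := k) (F := F)
  have H := sy_cubic' (k := k) (x := (1 / (x))) (u_nc1 h) (a1 := -3/2) (a2 := -3/2) (a3 := 3/10)
    (b := 1/10) (c1 := 9/10) (c2 := 9/10) (c3 := 9/10) (κ := 5/27) (fun p => by ring)
    (by norm_num) (by norm_num) (by norm_num) (by norm_num) (by norm_num) (by norm_num)
    (by norm_num)
  rw [hR2 h] at H
  have m1 : SS (pt (1 / (x))) (pt (algebraMap k F (-3/2))) (pt (algebraMap k F (1/10))) (pt (algebraMap k F (9/10))) ∈ V k x y := by
    rw [sq17 h]; exact memV (by norm_num)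
  have m2 : SS (pt (1 / (x))) (pt (algebraMap k F (-3/2))) (pt (algebraMap k F (1/10))) (pt (algebraMap k F (9/10))) ∈ V k x y := by
    rw [sq17 h]; exact memV (by norm_num)
  have m3 : SS (pt (1 / (x))) (pt (algebraMap k F (3/10))) (po F) (pt (algebraMap k F (9/10))) ∈ V k x y := by
    rw [sq18 h]; exact memV (by norm_num)
  have m4 : SS (pt (1 / (x))) (pt (algebraMap k F (-3/2))) (pt (algebraMap k F (9/10))) (pt (algebraMap k F (1/10))) ∈ V k x y := by
    rw [sq19 h]; exact memV (by norm_num)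
  have m5 : SS (pt (1 / (x))) (pt (algebraMap k F (3/10))) (pt (algebraMap k F (9/10))) (pt (algebraMap k F (1/10))) ∈ V k x y := by
    rw [sq20 h]; exact memV (by norm_num)
  have m6 : SS (pt (1 / (x))) (pt (algebraMap k F (-3/2))) (pt (algebraMap k F (9/10))) (pt (algebraMap k F (1/10))) ∈ V k x y := by
    rw [sq19 h]; exact memV (by norm_num)
  have m7 : SS (pt (1 / (x))) (pt (algebraMap k F (-3/2))) (po F) (pt (algebraMap k F (9/10))) ∈ V k x y := by
    rw [sq21 h]; exact memV (by norm_num)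
  have m8 : SS (pt (1 / (x))) (pt (algebraMap k F (3/10))) (pt (algebraMap k F (1/10))) (pt (algebraMap k F (9/10))) ∈ V k x y := by
    rw [sq22 h]; exact memV (by norm_num)
  have m9 : SS (pt (1 / (x))) (pt (algebraMap k F (3/10))) (pt (algebraMap k F (9/10))) (pt (algebraMap k F (-3/2))) ∈ V k x y := by
    rw [sq23 h]; exact memV (by norm_num)
  have m10 : SS (pt (1 / (x))) (pt (algebraMap k F (3/10))) (pt (algebraMap k F (-3/2))) (po F) ∈ V k x y := by
    rw [sq24 h]; exact memV (by norm_num)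
  have m11 : SS (pt (1 / (x))) (pt (algebraMap k F (3/10))) (po F) (pt (algebraMap k F (9/10))) ∈ V k x y := by
    rw [sq18 h]; exact memV (by norm_num)
  have H2 := Submodule.add_mem (V k x y) (Submodule.mem_sup_left H)
    (Submodule.add_mem _ (Submodule.add_mem _ (Submodule.add_mem _ (Submodule.add_mem _
    (Submodule.add_mem _ (Submodule.sub_mem _ (Submodule.sub_mem _ (Submodule.sub_mem _
    (Submodule.add_mem _ (Submodule.add_mem _ m1 m2) m3) m4) m5) m6) m7) m8) m9) m10) m11)
  rwa [sub_add_cancel] at H2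

/-- the translates -/
theorem cubj {β : ℕ} (hβ : β < 3) (i : ℕ) : ∀ x y : F, Gen (10/3 : k) (2) x y →
    sy (KC72.ev (List.ofFn (G8 x y)) (shM T8 i (R0.getD β default))) ∈ SC k F ⊔ Submodule.span ℚ
      {a | ∃ q < 25, a = sy (KC72.ev (List.ofFn (G8 x y)) (shM T8 i (pq.getD q default)))} := by
  induction i with
  | zero =>
    intro x y h
    interval_cases β
    · exact cub0_0 h
    · exact cub0_1 h
    · exact cub0_2 h
  | succ i ih =>
    intro x y h
    have hg := G8l_ne h
    have key := ih (nx x y) (ny x y) (Gen.next' h)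
    rw [G8_next h] at key
    simp only [← ev_subst hg] at key
    exact key

variable (k x y) in
/-- the span of the symbols of the classes of degree at most five -/
noncomputable def VA : Submodule ℚ (B2 F) := SC k F ⊔ Submodule.span ℚ
  {a | ∃ p ∈ clsA, a = sy (KC72.ev (List.ofFn (G8 x y)) p.1)}

lemma mem_getD {i : ℕ} (hi : i < 733) : cls.getD i default ∈ clsA := by
  have hl : i < cls.length := by rw [cls_len]; omega
  rw [List.getD_eq_getElem _ _ hl]
  exact List.mem_take_iff_getElem.mpr ⟨i, by rw [cls_len]; omega, rfl⟩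

lemma memA {i : ℕ} (hi : i < 733) :
    sy (KC72.ev (List.ofFn (G8 x y)) (cls.getD i default).1) ∈ VA k x y :=
  Submodule.mem_sup_right (Submodule.subset_span ⟨_, mem_getD hi, rfl⟩)

lemma sy_oo (h : Gen (10/3 : k) (2) x y) {p : ℕ × ℕ} (hp : p.1 < cls.length) :
    sy (KC72.ev (List.ofFn (G8 x y)) (oo cls p)) =
      sy (KC72.ev (List.ofFn (G8 x y)) (cls.getD p.1 default).1) ∨
    sy (KC72.ev (List.ofFn (G8 x y)) (oo cls p)) =
      - sy (KC72.ev (List.ofFn (G8 x y)) (cls.getD p.1 default).1) := by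
  have := cz (k := k) (F := F)
  have hg := G8l_ne h
  have HS := (sols8 h).getD hp
  refine sy_orb ?_ (orb6_orb hg HS p.2)
  intro h2
  rw [h2] at HS
  exact ev_ne hg (cls.getD p.1 default).2 (by linear_combination HS)

/-- **the classes of degree six** -/
theorem cub_mem (h : Gen (10/3 : k) (2) x y) {i : ℕ} (hi : i < 14) :
    sy (KC72.ev (List.ofFn (G8 x y)) (cls.getD (733 + i) default).1) ∈ VA k x y := by
  have hg := G8l_ne h
  have h1 := (List.all_eq_true.mp chk1) i (List.mem_range.mpr hi)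
  rw [Bool.and_eq_true, Bool.and_eq_true, Nat.blt_eq, Nat.blt_eq] at h1
  have h2 := (List.all_eq_true.mp chk2) _ (List.mem_range.mpr h1.2.1)
  rw [List.all_eq_true] at h2
  have key := cubj h1.2.2 (cubT.getD i default).2.1 x y h
  have hle : SC k F ⊔ Submodule.span ℚ {a | ∃ q < 25, a = sy (KC72.ev (List.ofFn (G8 x y))
      (shM T8 (cubT.getD i default).2.1 (pq.getD q default)))} ≤ VA k x y := by
    refine sup_le le_sup_left (Submodule.span_le.mpr ?_)
    rintro a ⟨q, hq, rfl⟩
    have h3 := h2 q (List.mem_range.mpr hq)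
    rw [Bool.and_eq_true, Nat.blt_eq] at h3
    show sy _ ∈ VA k x y
    rw [ev_eqM hg h3.2]
    rcases sy_oo h (p := (qT.getD (cubT.getD i default).2.1 []).getD q default)
      (by rw [cls_len]; omega) with h4 | h4
    · rw [h4]; exact memA h3.1
    · rw [h4]; exact Submodule.neg_mem _ (memA h3.1)
  have k2 := hle key
  rw [ev_eqM hg h1.1] at k2
  rcases sy_oo h (p := (733 + i, (cubT.getD i default).2.2))
    (by rw [cls_len]; show 733 + i < 747; omega) with h4 | h4
  · rw [h4] at k2; exact k2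
  · rw [h4] at k2
    have k3 := Submodule.neg_mem _ k2
    rwa [neg_neg] at k3

/-- **the symbols of all solutions** -/
theorem hUA (h : Gen (10/3 : k) (2) x y) {f : F} (hf : U8 k x y f) (hf1 : U8 k x y (1 - f)) :
    sy f ∈ SC k F ⊔ Submodule.span ℚ
      {a | ∃ p ∈ clsA, a = sy (KC72.ev (List.ofFn (G8 x y)) p.1)} := by
  have := cz (k := k) (F := F)
  have hg := G8l_ne h
  rcases unit8' h hf hf1 with ⟨c, rfl⟩ | ⟨p, hp, ho⟩
  · exact Submodule.mem_sup_left (Submodule.subset_span ⟨c, rfl⟩)
  · have h1 : KC72.ev (List.ofFn (G8 x y)) p.1 ≠ 1 := by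
      intro h2
      have HS := sols8 h p hp
      rw [h2] at HS
      exact ev_ne hg p.2 (by linear_combination HS)
    have h2 : sy (KC72.ev (List.ofFn (G8 x y)) p.1) ∈ VA k x y := by
      obtain ⟨c, hc, hcp⟩ := List.getElem_of_mem hp
      have h3 : p = cls.getD c default := by rw [List.getD_eq_getElem _ _ hc, hcp]
      rw [cls_len] at hc
      rw [h3]
      by_cases h5 : c < 733
      · exact memA h5
      · have h6 : c = 733 + (c - 733) := by omega
        rw [h6]
        exact cub_mem h (by omega)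
    rcases sy_orb h1 ho with h4 | h4
    · rw [h4]; exact h2
    · rw [h4]; exact Submodule.neg_mem _ h2

end

end Pool.Agent.KYd
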