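import Pool.Agent.Lib_helper72.KYd.Bq0
import Pool.Agent.Lib_helper72.KYd.Bq1
import Pool.Agent.Lib_helper72.KYd.Bq2
import Pool.Agent.Lib_helper72.KYd.Bq3
import Pool.Agent.Lib_helper72.KYd.Bq4
import Pool.Agent.Lib_helper72.KYd.Bq5
import Pool.Agent.Lib_helper72.KYd.Cl

/-!
# The curve with `b = 10/3`, `c = 2`: identities
-/

set_option autoImplicit false
set_option linter.unusedSectionVars false
set_option linter.unusedSimpArgs false
set_option linter.unusedVariables false

namespace Pool.Agent.KYd

open Polynomial WeierstrassCurve.Affine WithZero TN KY KC72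

section

variable {k : Type*} [Field k] [CharZero k] {F : Type*} [Field F] [Algebra k F] {x y : F}

lemma bp_sol (h : Gen (10/3 : k) (2) x y) : ∀ r < 67,
    KC72.ev (List.ofFn (G8 x y)) (bp.getD r default).1 +
      KC72.ev (List.ofFn (G8 x y)) (bp.getD r default).2.1 =
      KC72.ev (List.ofFn (G8 x y)) (bp.getD r default).2.2 := by
  intro r hr
  interval_cases r
  · exact bp0 h
  · exact bp1 h
  · exact bp2 h
  · exact bp3 h
  · exact bp4 h
  · exact bp5 h
  · exact bp6 h
  · exact bp7 h
  · exact bp8 h
  · exact bp9 h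
  · exact bp10 h
  · exact bp11 h
  · exact bp12 h
  · exact bp13 h
  · exact bp14 h
  · exact bp15 h
  · exact bp16 h
  · exact bp17 h
  · exact bp18 h
  · exact bp19 h
  · exact bp20 h
  · exact bp21 h
  · exact bp22 h
  · exact bp23 h
  · exact bp24 h
  · exact bp25 h
  · exact bp26 h
  · exact bp27 h
  · exact bp28 h
  · exact bp29 h
  · exact bp30 h
  · exact bp31 h
  · exact bp32 h
  · exact bp33 h
  · exact bp34 h
  · exact bp35 h
  · exact bp36 h
  · exact bp37 h
  · exact bp38 h
  · exact bp39 h
  · exact bp40 h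
  · exact bp41 h
  · exact bp42 h
  · exact bp43 h
  · exact bp44 h
  · exact bp45 h
  · exact bp46 h
  · exact bp47 h
  · exact bp48 h
  · exact bp49 h
  · exact bp50 h
  · exact bp51 h
  · exact bp52 h
  · exact bp53 h
  · exact bp54 h
  · exact bp55 h
  · exact bp56 h
  · exact bp57 h
  · exact bp58 h
  · exact bp59 h
  · exact bp60 h
  · exact bp61 h
  · exact bp62 h
  · exact bp63 h
  · exact bp64 h
  · exact bp65 h
  · exact bp66 h

end

end Pool.Agent.KYd
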