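import Pool.Agent.Lib_helper72.KYd.C
import Pool.Agent.Lib_helper72.KYd.ClD
import Pool.Agent.Lib_helper72.KY.Nx
import Pool.Agent.Lib_helper72.KC.P2

/-!
# The curve with `b = 10/3`, `c = 2`: data of the cubic step
-/

set_option autoImplicit false
set_option linter.unusedSectionVars false
set_option linter.unusedSimpArgs false
set_option linter.unusedVariables false

namespace Pool.Agent.KYd

open Polynomial WeierstrassCurve.Affine WithZero TN KY KC72 MK4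
open Pool.Agent.K7 (orb6_orb)

/-- the Moebius functions -/
noncomputable def pq : List Mo := [
  (false, [.ofNat 0, .ofNat 1, .ofNat 0, .negSucc 0, .ofNat 0, .ofNat 0, .ofNat 0, .ofNat 0, .ofNat 0, .ofNat 0, .ofNat 0, .ofNat 0, .negSucc 0, .ofNat 0]),
  (false, [.ofNat 0, .ofNat 0, .ofNat 0, .ofNat 0, .ofNat 0, .ofNat 1, .ofNat 0, .ofNat 0, .ofNat 0, .ofNat 0, .ofNat 0, .negSucc 0, .ofNat 1, .ofNat 0]),
  (false, [.ofNat 0, .ofNat 1, .negSucc 0, .ofNat 0, .ofNat 0, .ofNat 0, .ofNat 0, .ofNat 0, .ofNat 0, .ofNat 0, .ofNat 0, .ofNat 1, .ofNat 0, .negSucc 0]),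
  (true, [.ofNat 0, .ofNat 0, .ofNat 0, .ofNat 0, .negSucc 0, .ofNat 1, .ofNat 0, .ofNat 0, .ofNat 0, .ofNat 0, .ofNat 0, .ofNat 0, .ofNat 0, .ofNat 1]),
  (false, [.ofNat 0, .ofNat 1, .ofNat 0, .ofNat 0, .ofNat 0, .ofNat 0, .ofNat 0, .ofNat 0, .ofNat 0, .ofNat 0, .ofNat 0, .negSucc 1, .ofNat 1, .negSucc 0]),
  (false, [.ofNat 0, .ofNat 0, .ofNat 0, .negSucc 0, .ofNat 0, .ofNat 1, .ofNat 0, .ofNat 0, .ofNat 0, .ofNat 0, .ofNat 0, .negSucc 0, .negSucc 0, .ofNat 1]),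
  (true, [.ofNat 0, .ofNat 0, .ofNat 0, .ofNat 0, .negSucc 0, .ofNat 1, .ofNat 0, .ofNat 0, .ofNat 0, .ofNat 0, .ofNat 0, .ofNat 0, .negSucc 0, .ofNat 1]),
  (false, [.ofNat 0, .negSucc 0, .ofNat 0, .ofNat 0, .ofNat 0, .ofNat 1, .ofNat 0, .ofNat 0, .ofNat 0, .ofNat 0, .ofNat 0, .ofNat 0, .ofNat 0, .ofNat 0]),
  (false, [.ofNat 0, .ofNat 0, .ofNat 0, .ofNat 0, .ofNat 0, .ofNat 1, .ofNat 0, .ofNat 0, .ofNat 0, .ofNat 0, .ofNat 0, .negSucc 2, .ofNat 1, .ofNat 0]),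
  (false, [.ofNat 1, .ofNat 0, .ofNat 0, .ofNat 0, .ofNat 0, .ofNat 0, .ofNat 0, .ofNat 0, .ofNat 0, .ofNat 0, .ofNat 0, .negSucc 0, .ofNat 1, .negSucc 0]),
  (true, [.ofNat 0, .ofNat 0, .ofNat 0, .negSucc 0, .ofNat 1, .ofNat 0, .ofNat 0, .ofNat 0, .ofNat 0, .ofNat 0, .ofNat 0, .ofNat 0, .negSucc 0, .ofNat 0]),
  (false, [.ofNat 1, .negSucc 0, .ofNat 0, .ofNat 0, .ofNat 0, .ofNat 0, .ofNat 0, .ofNat 0, .ofNat 0, .ofNat 0, .ofNat 0, .ofNat 0, .ofNat 0, .ofNat 0]),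
  (false, [.ofNat 0, .negSucc 0, .ofNat 0, .ofNat 0, .ofNat 1, .ofNat 0, .ofNat 0, .ofNat 0, .ofNat 0, .ofNat 0, .ofNat 0, .ofNat 0, .ofNat 0, .ofNat 0]),
  (false, [.ofNat 1, .ofNat 0, .ofNat 0, .negSucc 0, .ofNat 0, .ofNat 0, .ofNat 0, .ofNat 0, .ofNat 0, .ofNat 0, .ofNat 0, .ofNat 1, .negSucc 0, .ofNat 0]),
  (true, [.ofNat 0, .ofNat 0, .ofNat 0, .ofNat 0, .ofNat 1, .ofNat 0, .ofNat 0, .ofNat 0, .ofNat 0, .ofNat 0, .ofNat 0, .negSucc 1, .ofNat 1, .negSucc 0]),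
  (false, [.ofNat 0, .negSucc 0, .ofNat 0, .ofNat 0, .ofNat 1, .ofNat 0, .ofNat 0, .ofNat 0, .ofNat 0, .ofNat 0, .ofNat 0, .ofNat 0, .negSucc 0, .ofNat 0]),
  (true, [.negSucc 0, .ofNat 0, .ofNat 0, .ofNat 0, .ofNat 1, .ofNat 0, .ofNat 0, .ofNat 0, .ofNat 0, .ofNat 0, .ofNat 0, .negSucc 2, .ofNat 0, .ofNat 0]),
  (true, [.ofNat 0, .ofNat 0, .ofNat 0, .ofNat 0, .negSucc 0, .ofNat 1, .ofNat 0, .ofNat 0, .ofNat 0, .ofNat 0, .ofNat 0, .ofNat 0, .ofNat 0, .ofNat 1]),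
  (true, [.negSucc 0, .ofNat 1, .ofNat 0, .ofNat 0, .ofNat 0, .ofNat 0, .ofNat 0, .ofNat 0, .ofNat 0, .ofNat 0, .ofNat 0, .negSucc 0, .ofNat 0, .ofNat 0]),
  (false, [.ofNat 0, .ofNat 0, .ofNat 0, .negSucc 0, .ofNat 0, .ofNat 1, .ofNat 0, .ofNat 0, .ofNat 0, .ofNat 0, .ofNat 0, .negSucc 0, .negSucc 0, .ofNat 1]),
  (false, [.ofNat 0, .ofNat 1, .ofNat 0, .negSucc 0, .ofNat 0, .ofNat 0, .ofNat 0, .ofNat 0, .ofNat 0, .ofNat 0, .ofNat 0, .ofNat 2, .negSucc 0, .ofNat 0]),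
  (false, [.negSucc 0, .ofNat 0, .ofNat 0, .ofNat 0, .ofNat 0, .ofNat 1, .ofNat 0, .ofNat 0, .ofNat 0, .ofNat 0, .ofNat 0, .negSucc 2, .ofNat 0, .ofNat 1]),
  (false, [.ofNat 0, .ofNat 1, .ofNat 0, .ofNat 0, .negSucc 0, .ofNat 0, .ofNat 0, .ofNat 0, .ofNat 0, .ofNat 0, .ofNat 0, .ofNat 2, .ofNat 0, .ofNat 0]),
  (false, [.ofNat 0, .ofNat 1, .ofNat 0, .negSucc 0, .ofNat 0, .ofNat 0, .ofNat 0, .ofNat 0, .ofNat 0, .ofNat 0, .ofNat 0, .ofNat 2, .negSucc 1, .ofNat 0]),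
  (true, [.ofNat 0, .ofNat 1, .ofNat 0, .ofNat 0, .ofNat 0, .negSucc 0, .ofNat 0, .ofNat 0, .ofNat 0, .ofNat 0, .ofNat 0, .ofNat 0, .ofNat 0, .negSucc 0])]

/-- the functions of degree three of the coordinate -/
noncomputable def R0 : List Mo := [
  (false, [.ofNat 0, .ofNat 2, .ofNat 0, .negSucc 1, .ofNat 0, .ofNat 1, .ofNat 0, .ofNat 0, .ofNat 0, .ofNat 0, .ofNat 0, .negSucc 0, .negSucc 0, .ofNat 0]),
  (true, [.ofNat 2, .ofNat 0, .ofNat 0, .negSucc 0, .ofNat 1, .ofNat 0, .ofNat 0, .ofNat 0, .ofNat 0, .ofNat 0, .ofNat 0, .negSucc 1, .ofNat 1, .negSucc 1]),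
  (true, [.negSucc 0, .ofNat 1, .ofNat 0, .ofNat 0, .negSucc 1, .ofNat 2, .ofNat 0, .ofNat 0, .ofNat 0, .ofNat 0, .ofNat 0, .negSucc 0, .ofNat 0, .ofNat 2])]

/-- positions of the translates of `pq` -/
noncomputable def qT : List (List (ℕ × ℕ)) := [
  [(484, 3), (344, 0), (481, 4), (330, 5), (401, 1), (330, 0), (332, 5), (343, 5), (341, 0), (674, 1), (394, 5), (674, 3), (401, 5), (484, 2), (401, 0), (400, 5), (395, 0), (330, 5), (484, 1), (330, 0), (394, 4), (337, 0), (394, 2), (336, 4), (342, 3)],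
  [(592, 3), (4, 3), (590, 4), (431, 5), (7, 2), (431, 0), (433, 5), (3, 1), (2, 3), (14, 2), (501, 5), (14, 4), (7, 1), (592, 2), (7, 3), (505, 5), (502, 0), (431, 5), (592, 1), (431, 0), (501, 4), (437, 0), (501, 2), (436, 4), (440, 3)],
  [(67, 4), (33, 2), (686, 4), (533, 5), (44, 2), (533, 0), (535, 5), (41, 1), (40, 3), (37, 3), (608, 5), (37, 1), (44, 1), (67, 5), (44, 3), (65, 1), (63, 3), (533, 5), (67, 2), (533, 0), (608, 4), (60, 3), (608, 2), (537, 4), (62, 4)],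
  [(125, 1), (86, 2), (188, 0), (636, 5), (91, 3), (636, 0), (183, 1), (90, 4), (96, 3), (85, 3), (186, 1), (85, 1), (91, 4), (125, 0), (91, 2), (124, 4), (130, 3), (636, 5), (125, 3), (636, 0), (186, 0), (128, 3), (186, 5), (184, 0), (123, 1)],
  [(205, 1), (152, 2), (277, 5), (713, 5), (157, 3), (713, 0), (278, 1), (156, 4), (159, 2), (150, 3), (280, 1), (150, 1), (157, 4), (205, 0), (157, 2), (204, 4), (211, 3), (713, 5), (205, 3), (713, 0), (280, 0), (210, 3), (280, 5), (279, 0), (203, 1)],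
  [(295, 1), (237, 2), (378, 5), (577, 1), (242, 3), (577, 3), (383, 1), (241, 4), (244, 2), (234, 3), (382, 4), (234, 1), (242, 4), (295, 0), (242, 2), (297, 4), (302, 2), (577, 1), (295, 3), (577, 3), (382, 5), (301, 2), (382, 0), (381, 5), (296, 1)]]

/-- positions of the classes of degree six -/
noncomputable def cubT : List (ℕ × ℕ × ℕ) := [(1, 3, 1), (1, 4, 1), (1, 5, 4), (2, 0, 1), (1, 1, 2), (1, 2, 5), (0, 1, 3), (2, 2, 2), (2, 5, 1), (2, 1, 1), (2, 3, 5), (0, 0, 0), (1, 0, 1), (2, 4, 5)]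

/-- the classes of degree at most five -/
noncomputable def clsA : List (Mo × Mo) := cls.take 733

section

variable {k : Type*} [Field k] [CharZero k] {F : Type*} [Field F] [Algebra k F] {x y : F}

lemma mk0 : algebraMap k F (10/3) = 10/3 := by simp [map_div₀, map_ofNat, map_neg]

lemma mk1 : algebraMap k F (-2/3) = -2/3 := by simp [map_div₀, map_ofNat, map_neg]

lemma mk2 : algebraMap k F (0) = 0 := by simp [map_div₀, map_ofNat, map_neg]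

lemma mk3 : algebraMap k F (2) = 2 := by simp [map_div₀, map_ofNat, map_neg]

lemma mk4 : algebraMap k F (10) = 10 := by simp [map_div₀, map_ofNat, map_neg]

lemma mk5 : algebraMap k F (10/9) = 10/9 := by simp [map_div₀, map_ofNat, map_neg]

lemma mk6 : algebraMap k F (1/6) = 1/6 := by simp [map_div₀, map_ofNat, map_neg]

lemma mk7 : algebraMap k F (-9/10) = -9/10 := by simp [map_div₀, map_ofNat, map_neg]

lemma mk8 : algebraMap k F (9/80) = 9/80 := by simp [map_div₀, map_ofNat, map_neg]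

lemma mk9 : algebraMap k F (9/20) = 9/20 := by simp [map_div₀, map_ofNat, map_neg]

lemma mk10 : algebraMap k F (80/243) = 80/243 := by simp [map_div₀, map_ofNat, map_neg]

lemma mk11 : algebraMap k F (-3/2) = -3/2 := by simp [map_div₀, map_ofNat, map_neg]

lemma mk12 : algebraMap k F (3/10) = 3/10 := by simp [map_div₀, map_ofNat, map_neg]

lemma mk13 : algebraMap k F (9/10) = 9/10 := by simp [map_div₀, map_ofNat, map_neg]

lemma mk14 : algebraMap k F (1/10) = 1/10 := by simp [map_div₀, map_ofNat, map_neg]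

lemma mk15 : algebraMap k F (5/27) = 5/27 := by simp [map_div₀, map_ofNat, map_neg]

end

end Pool.Agent.KYd
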