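import Pool.Agent.Lib_helper72.KY.Nf
import Pool.Agent.Lib_helper72.KYd.ClD
import Pool.Agent.Lib_helper72.KYd.C

/-!
# The curve with `b = 10/3`, `c = 2`: the classes under translation
-/

set_option autoImplicit false

namespace Pool.Agent.KYd

open KY KC72

/-- the packed generators at the next point -/
noncomputable def ptd : PT := ⟨512, 85070591730234615865843651857942052864, 3, 14, [
  1,
  512,
  262144,
  134217728,
  68719476736,
  35184372088832,
  18014398509481984,
  9223372036854775808,
  4722366482869645213696,
  2417851639229258349412352,
  1237940039285380274899124224,
  633825300114114700748351602688,
  324518553658426726783156020576256,
  166153499473114484112975882535043072], [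
  165829614744756171518907873375551486,
  165829614744756180742279910230326782,
  633825304845704555654851330046,
  165505096193520318779822446705901566,
  166154134538772489152286095415705598,
  85070267847982137631802294815699238910,
  331659229489512352243173385096396285,
  165830248570061017223463528226881021,
  165505730018820442117895231912017917,
  331659230729874956292879283772194813,
  165830251048354215825548778273767421,
  633825300114114700748351602688,
  324518553658426726783156020576256,
  166153499473114484112975882535043072],
  [false, true, true, true, true, false, false, true, true, true, false, false, false, false]⟩

lemma ptO : ptd.Ok T8 where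
  PB := by decide +kernel
  R := by decide +kernel
  S := by decide +kernel
  bT := by decide +kernel
  lT := by decide +kernel
  bN := by decide +kernel
  b0 := by decide +kernel

lemma nx_ok : ∀ c < cls.length, nxC T8 cls nxt c = true := nx_of ptO (by decide +kernel)

lemma rk_ok : ∀ c < cls.length, rkC bp cls nxt rk c = true := rk_of cls_len (by decide +kernel)

end Pool.Agent.KYd
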